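import Mathlib

/-!
# Separating eight points in space by three planes

Every set of eight points of `ℝ³` in general position is separated by three planes.

Outline. Choose a point `p₀` farthest from the origin, and then a second point `p₁` such that there
is a plane through `p₀` and `p₁` all other points being strictly on one side of it. Number the
other six points `p₂, ..., p₇` by angle around the line `p₀ p₁`. Then `det (p₀, p₁, pᵢ, pⱼ) > 0`
for `2 ≤ i < j ≤ 7`. The rest of the proof only uses the signs of the determinants of four points: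
they obey the three-term Grassmann-Plücker relations, and a partition of the eight points into two
sets of four points is induced by a plane if there are three points such that the other five lie on
the correct sides of the plane through these three points. A finite search (a decision tree with
571 leaves, checked by the kernel) shows that three partitions that separate all points are always
induced by planes.
-/

set_option autoImplicit false

open scoped RealInnerProductSpace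

namespace Pool.Agent.Results.MP_a0a64f_co.EightPoints

/-- Euclidean three-dimensional space. -/
abbrev E := EuclideanSpace ℝ (Fin 3)

/-! ### Determinants -/

noncomputable def det3 (u v w : E) : ℝ :=
  u 0 * (v 1 * w 2 - v 2 * w 1) - u 1 * (v 0 * w 2 - v 2 * w 0) + u 2 * (v 0 * w 1 - v 1 * w 0)

noncomputable def D (p q r x : E) : ℝ := det3 (q - p) (r - p) (x - p)

lemma D_swap12 (p q r x : E) : D q p r x = - D p q r x := by
  simp only [D, det3, PiLp.sub_apply]; ring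

lemma D_swap23 (p q r x : E) : D p r q x = - D p q r x := by
  simp only [D, det3, PiLp.sub_apply]; ring

lemma D_swap34 (p q r x : E) : D p q x r = - D p q r x := by
  simp only [D, det3, PiLp.sub_apply]; ring

lemma D_same (p q r : E) : D p p q r = 0 := by
  simp only [D, det3, PiLp.sub_apply]; ring

lemma D_gp (x y a b c d : E) :
    D x y a b * D x y c d - D x y a c * D x y b d + D x y a d * D x y b c = 0 := by
  simp only [D, det3, PiLp.sub_apply]; ring

/-- A real function on space is affine (in coordinates). -/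
def IsAff (f : E → ℝ) : Prop := ∃ (u : E) (k : ℝ), ∀ x, f x = ⟪u, x⟫ + k

lemma IsAff.add {f g : E → ℝ} (hf : IsAff f) (hg : IsAff g) : IsAff (fun x => f x + g x) := by
  obtain ⟨u, k, h⟩ := hf
  obtain ⟨u', k', h'⟩ := hg
  refine ⟨u + u', k + k', fun x => ?_⟩
  simp only [h, h', inner_add_left]; ring

lemma IsAff.smul {f : E → ℝ} (c : ℝ) (hf : IsAff f) : IsAff (fun x => c * f x) := by
  obtain ⟨u, k, h⟩ := hf
  refine ⟨c • u, c * k, fun x => ?_⟩
  simp only [h, real_inner_smul_left]; ring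

lemma isAff_D (p q r : E) : IsAff (fun x => D p q r x) := by
  refine ⟨!₂[(q 1 - p 1) * (r 2 - p 2) - (q 2 - p 2) * (r 1 - p 1),
    -((q 0 - p 0) * (r 2 - p 2) - (q 2 - p 2) * (r 0 - p 0)),
    (q 0 - p 0) * (r 1 - p 1) - (q 1 - p 1) * (r 0 - p 0)], D p q r 0, fun x => ?_⟩
  simp only [D, det3, PiLp.sub_apply, PiLp.inner_apply, Fin.sum_univ_three, PiLp.zero_apply,
    RCLike.inner_apply, conj_trivial]
  simp
  ring

lemma isAff_D3 (p q r : E) : IsAff (fun x => D p q x r) := by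
  have h := (isAff_D p q r).smul (-1)
  convert h using 2 with x
  rw [D_swap34]; ring

lemma isAff_D2 (p q r : E) : IsAff (fun x => D p x q r) := by
  have h := (isAff_D3 p q r).smul (-1)
  convert h using 2 with x
  rw [D_swap23]; ring

lemma isAff_D1 (p q r : E) : IsAff (fun x => D x p q r) := by
  have h := (isAff_D2 p q r).smul (-1)
  convert h using 2 with x
  rw [D_swap12]; ring

/-! ### Signs -/

/-- The sign `±1` given by a truth value. -/
def sg (b : Bool) : ℝ := if b then 1 else -1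

lemma sg_beq (a b : Bool) : sg (a == b) = sg a * sg b := by
  cases a <;> cases b <;> simp [sg]

lemma sg_not (a : Bool) : sg (!a) = - sg a := by
  cases a <;> simp [sg]

lemma sg_ne_zero (a : Bool) : sg a ≠ 0 := by
  cases a <;> simp [sg]

lemma sg_sq (a : Bool) : sg a * sg a = 1 := by
  cases a <;> simp [sg]

lemma not_pos_iff {b : Bool} {x : ℝ} (hx : x ≠ 0) : ¬ (0 < sg (!b) * x) → 0 < sg b * x := by
  intro h
  rw [sg_not] at h
  have h1 : 0 ≤ sg b * x := by linarith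
  exact lt_of_le_of_ne h1 (mul_ne_zero (sg_ne_zero b) hx).symm

/-- `chi Q a b c d` is the determinant of the points `Q a, Q b, Q c, Q d`. -/
noncomputable def chi (Q : Fin 8 → E) (a b c d : Fin 8) : ℝ := D (Q a) (Q b) (Q c) (Q d)

/-- The eight points are separated into the set `{i | bit i of m is 1}` and its complement by
some plane. -/
def Sep (Q : Fin 8 → E) (m : ℕ) : Prop :=
  ∃ (u : E) (β : ℝ), ∀ i : Fin 8,
    (m.testBit i = true → β < ⟪u, Q i⟫) ∧ (m.testBit i = false → ⟪u, Q i⟫ < β)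

/-- If three points are such that the others lie on the correct sides of their plane, then a
partition is induced by a plane. -/
lemma sep_of_triple {Q : Fin 8 → E} {m : ℕ} {a b c : Fin 8} {s : Bool}
    (hab : a ≠ b) (hac : a ≠ c) (hbc : b ≠ c)
    (hne : ∀ d, d ≠ a → d ≠ b → d ≠ c → chi Q a b c d ≠ 0)
    (h : ∀ d, d ≠ a → d ≠ b → d ≠ c → 0 < sg (s == m.testBit d) * chi Q a b c d) :
    Sep Q m := by
  have hex : ∀ a b c : Fin 8, ∃ d, d ≠ a ∧ d ≠ b ∧ d ≠ c := by decide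
  obtain ⟨e, he1, he2, he3⟩ := hex a b c
  have hΔ : D (Q a) (Q b) (Q c) (Q e) ≠ 0 := hne e he1 he2 he3
  set Δ := D (Q a) (Q b) (Q c) (Q e) with hΔdef
  let ε : Fin 8 → ℝ := fun i => sg (m.testBit i)
  let g : E → ℝ := fun x => (ε a / Δ) * D x (Q b) (Q c) (Q e) + (ε b / Δ) * D (Q a) x (Q c) (Q e) +
    (ε c / Δ) * D (Q a) (Q b) x (Q e)
  let f : E → ℝ := fun x => sg s * D (Q a) (Q b) (Q c) x
  have hg : IsAff g := (((isAff_D1 _ _ _).smul _).add ((isAff_D2 _ _ _).smul _)).add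
    ((isAff_D3 _ _ _).smul _)
  have hf : IsAff f := (isAff_D _ _ _).smul _
  have hzab : ∀ p q r : E, D p p q r = 0 := D_same
  have hzbb : ∀ p q r : E, D p q q r = 0 := by
    intro p q r
    have := D_swap23 p q q r
    linarith
  have hzcc : ∀ p q r : E, D p q r r = 0 := by
    intro p q r
    have := D_swap34 p q r r
    linarith
  have hzac : ∀ p q r : E, D p q p r = 0 := by
    intro p q r
    rw [D_swap23, hzab, neg_zero]
  have hzad : ∀ p q r : E, D p q r p = 0 := by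
    intro p q r
    rw [D_swap34, hzac, neg_zero]
  have hzbd : ∀ p q r : E, D p q r q = 0 := by
    intro p q r
    rw [D_swap34, hzbb, neg_zero]
  have hga : g (Q a) = ε a := by
    simp only [g, hzab, hzac, ← hΔdef]
    field_simp
    ring
  have hgb : g (Q b) = ε b := by
    simp only [g, hzab, hzbb, ← hΔdef]
    field_simp
    ring
  have hgc : g (Q c) = ε c := by
    simp only [g, hzbb, hzac, ← hΔdef]
    field_simp
    ring
  have hfa : f (Q a) = 0 := by simp only [f, hzad, mul_zero]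
  have hfb : f (Q b) = 0 := by simp only [f, hzbd, mul_zero]
  have hfc : f (Q c) = 0 := by simp only [f, hzcc, mul_zero]
  -- for small positive `δ` the function `f + δ g` has the right signs
  have key : ∀ i : Fin 8, ∀ᶠ δ in nhdsWithin (0 : ℝ) (Set.Ioi 0),
      0 < ε i * (f (Q i) + δ * g (Q i)) := by
    intro i
    by_cases hi : i = a ∨ i = b ∨ i = c
    · have h1 : f (Q i) = 0 ∧ g (Q i) = ε i := by
        rcases hi with rfl | rfl | rfl
        · exact ⟨hfa, hga⟩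
        · exact ⟨hfb, hgb⟩
        · exact ⟨hfc, hgc⟩
      filter_upwards [self_mem_nhdsWithin] with δ hδ
      have hδ' : (0 : ℝ) < δ := hδ
      rw [h1.1, h1.2]
      have h2 : ε i * (0 + δ * ε i) = δ * (ε i * ε i) := by ring
      rw [h2, sg_sq, mul_one]
      exact hδ'
    · push Not at hi
      have h1 := h i hi.1 hi.2.1 hi.2.2
      have h2 : 0 < ε i * f (Q i) := by
        rw [sg_beq] at h1
        have : ε i * f (Q i) = sg s * sg (m.testBit i) * chi Q a b c i := by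
          simp only [ε, f, chi]; ring
        rw [this]
        exact h1
      have h3 : Filter.Tendsto (fun δ : ℝ => ε i * (f (Q i) + δ * g (Q i)))
          (nhdsWithin (0 : ℝ) (Set.Ioi 0)) (nhds (ε i * (f (Q i) + 0 * g (Q i)))) := by
        apply Filter.Tendsto.mono_left _ nhdsWithin_le_nhds
        apply Continuous.tendsto
        fun_prop
      rw [zero_mul, add_zero] at h3
      exact h3.eventually (lt_mem_nhds h2)
  obtain ⟨δ, hδ⟩ := (Filter.eventually_all.2 key).exists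
  obtain ⟨u, k, hu⟩ := hf.add (hg.smul δ)
  refine ⟨u, -k, fun i => ?_⟩
  have h1 := hδ i
  have h2 := hu (Q i)
  simp only at h2
  rw [h2] at h1
  constructor
  · intro hb
    simp only [ε, hb, sg, if_true] at h1
    linarith
  · intro hb
    simp only [ε, hb, sg] at h1
    simp at h1
    linarith

/-! ### Clauses -/

/-- The sorted quadruples of indices, in lexicographic order. -/
def quads : List (Fin 8 × Fin 8 × Fin 8 × Fin 8) :=
  [(0, 1, 2, 3), (0, 1, 2, 4), (0, 1, 2, 5), (0, 1, 2, 6), (0, 1, 2, 7), (0, 1, 3, 4), (0, 1, 3,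
  5), (0, 1, 3, 6), (0, 1, 3, 7), (0, 1, 4, 5), (0, 1, 4, 6), (0, 1, 4, 7), (0, 1, 5, 6), (0, 1,
  5, 7), (0, 1, 6, 7), (0, 2, 3, 4), (0, 2, 3, 5), (0, 2, 3, 6), (0, 2, 3, 7), (0, 2, 4, 5), (0,
  2, 4, 6), (0, 2, 4, 7), (0, 2, 5, 6), (0, 2, 5, 7), (0, 2, 6, 7), (0, 3, 4, 5), (0, 3, 4, 6),
  (0, 3, 4, 7), (0, 3, 5, 6), (0, 3, 5, 7), (0, 3, 6, 7), (0, 4, 5, 6), (0, 4, 5, 7), (0, 4, 6,
  7), (0, 5, 6, 7), (1, 2, 3, 4), (1, 2, 3, 5), (1, 2, 3, 6), (1, 2, 3, 7), (1, 2, 4, 5), (1, 2,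
  4, 6), (1, 2, 4, 7), (1, 2, 5, 6), (1, 2, 5, 7), (1, 2, 6, 7), (1, 3, 4, 5), (1, 3, 4, 6), (1,
  3, 4, 7), (1, 3, 5, 6), (1, 3, 5, 7), (1, 3, 6, 7), (1, 4, 5, 6), (1, 4, 5, 7), (1, 4, 6, 7),
  (1, 5, 6, 7), (2, 3, 4, 5), (2, 3, 4, 6), (2, 3, 4, 7), (2, 3, 5, 6), (2, 3, 5, 7), (2, 3, 6,
  7), (2, 4, 5, 6), (2, 4, 5, 7), (2, 4, 6, 7), (2, 5, 6, 7), (3, 4, 5, 6), (3, 4, 5, 7), (3, 4,
  6, 7), (3, 5, 6, 7), (4, 5, 6, 7)]

/-- The bit masks of the four-element subsets of `{0, ..., 7}` which contain `0`. -/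
def masks : List ℕ :=
  [15, 23, 27, 29, 39, 43, 45, 51, 53, 57, 71, 75, 77, 83, 85, 89, 99, 101, 105, 113, 135, 139,
  141, 147, 149, 153, 163, 165, 169, 177, 195, 197, 201, 209, 225]

/-- A quadruple of indices with a sign. -/
abbrev Tup := Fin 8 × Fin 8 × Fin 8 × Fin 8 × Bool

/-- the signed determinant -/
noncomputable def val (Q : Fin 8 → E) (t : Tup) : ℝ := sg t.2.2.2.2 * chi Q t.1 t.2.1 t.2.2.1 t.2.2.2.1

def s12 (t : Tup) : Tup :=
  if t.2.1 < t.1 then (t.2.1, t.1, t.2.2.1, t.2.2.2.1, !t.2.2.2.2) else t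

def s23 (t : Tup) : Tup :=
  if t.2.2.1 < t.2.1 then (t.1, t.2.2.1, t.2.1, t.2.2.2.1, !t.2.2.2.2) else t

def s34 (t : Tup) : Tup :=
  if t.2.2.2.1 < t.2.2.1 then (t.1, t.2.1, t.2.2.2.1, t.2.2.1, !t.2.2.2.2) else t

lemma val_s12 (Q : Fin 8 → E) (t : Tup) : val Q (s12 t) = val Q t := by
  unfold s12
  split_ifs
  · simp only [val, chi, sg_not]
    rw [D_swap12]; ring
  · rfl

lemma val_s23 (Q : Fin 8 → E) (t : Tup) : val Q (s23 t) = val Q t := by
  unfold s23
  split_ifs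
  · simp only [val, chi, sg_not]
    rw [D_swap23]; ring
  · rfl

lemma val_s34 (Q : Fin 8 → E) (t : Tup) : val Q (s34 t) = val Q t := by
  unfold s34
  split_ifs
  · simp only [val, chi, sg_not]
    rw [D_swap34]; ring
  · rfl

/-- sort the quadruple -/
def srt (t : Tup) : Tup := s12 (s23 (s12 (s34 (s23 (s12 t)))))

lemma val_srt (Q : Fin 8 → E) (t : Tup) : val Q (srt t) = val Q t := by
  simp only [srt, val_s12, val_s23, val_s34]

/-- A literal: a signed determinant is positive, or a partition is (not) induced by a plane. -/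
inductive Lit
  | ori (t : Tup)
  | sep (m : ℕ) (b : Bool)

def Holds (Q : Fin 8 → E) : Lit → Prop
  | .ori t => 0 < val Q t
  | .sep m b => if b then Sep Q m else ¬ Sep Q m

/-- the meaning of the propositional variables -/
def A (Q : Fin 8 → E) (v : ℕ) : Prop :=
  if v ≤ 70 then
    ∃ q ∈ quads[v - 1]?, 0 < chi Q q.1 q.2.1 q.2.2.1 q.2.2.2
  else ∃ m ∈ masks[v - 71]?, Sep Q m

/-- number of a sorted quadruple -/
def quadNr (u : Tup) : ℕ := quads.findIdx (fun q => q == (u.1, u.2.1, u.2.2.1, u.2.2.2.1)) + 1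

/-- number of a partition -/
def maskNr (m : ℕ) : ℕ := masks.findIdx (fun q => q == m) + 71

/-- number of the variable of a literal -/
def encV : Lit → ℕ
  | .ori t => quadNr (srt t)
  | .sep m _ => maskNr m

/-- sign of a literal -/
def encS : Lit → Bool
  | .ori t => (srt t).2.2.2.2
  | .sep _ b => b

/-- the number of the variable has been computed correctly -/
def encOK : Lit → Bool
  | .ori t => decide (quadNr (srt t) ≤ 70) && (quads[quadNr (srt t) - 1]? ==
      some ((srt t).1, (srt t).2.1, (srt t).2.2.1, (srt t).2.2.2.1))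
  | .sep m _ => !(decide (maskNr m ≤ 70)) && (masks[maskNr m - 71]? == some m)

lemma enc_spec (Q : Fin 8 → E) (l : Lit) (hl : encOK l = true) (h : Holds Q l) :
    (encS l = true ∧ A Q (encV l)) ∨ (encS l = false ∧ ¬ A Q (encV l)) := by
  cases l with
  | ori t =>
    simp only [encOK, Bool.and_eq_true, decide_eq_true_eq, beq_iff_eq] at hl
    have h1 : 0 < val Q (srt t) := by rw [val_srt]; exact h
    simp only [encS, encV]
    generalize srt t = u at hl h1 ⊢
    generalize quadNr u = v at hl ⊢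
    have h2 : A Q v ↔ 0 < chi Q u.1 u.2.1 u.2.2.1 u.2.2.2.1 := by
      unfold A
      rw [if_pos hl.1, hl.2]
      simp
    rw [h2]
    unfold val at h1
    cases h4 : u.2.2.2.2 with
    | true => left; rw [h4] at h1; simpa [sg] using h1
    | false =>
      right
      rw [h4] at h1
      simp only [sg] at h1
      refine ⟨rfl, ?_⟩
      simp at h1
      linarith
  | sep m b =>
    simp only [encOK, Bool.and_eq_true, Bool.not_eq_true', decide_eq_false_iff_not,
      beq_iff_eq] at hl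
    simp only [encS, encV]
    generalize maskNr m = v at hl ⊢
    have h2 : A Q v ↔ Sep Q m := by
      unfold A
      rw [if_neg hl.1, hl.2]
      simp
    rw [h2]
    cases b with
    | true => left; exact ⟨rfl, h⟩
    | false => right; exact ⟨rfl, h⟩

/-- The clauses: Grassmann-Plücker relations, criterion for being induced by a plane, assumption
that no three separating partitions are induced by planes, numbering of the points. -/
inductive Desc
  | gp (x y a b c d : Fin 8) (v1 v2 v3 t : Bool)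
  | sep (m : ℕ) (a b c : Fin 8) (s : Bool)
  | tri (A B C : ℕ)
  | ord (i j : Fin 8)

def lits : Desc → List Lit
  | .gp x y a b c d v1 v2 v3 t =>
    [.ori (x, y, a, b, !v1), .ori (x, y, c, d, !(t == v1)), .ori (x, y, a, c, !v2),
      .ori (x, y, b, d, (t == v2)), .ori (x, y, a, d, !v3), .ori (x, y, b, c, !(t == v3))]
  | .sep m a b c s =>
    .sep m true :: ((List.finRange 8).filter (fun d => decide (d ≠ a ∧ d ≠ b ∧ d ≠ c))).map
      (fun d => .ori (a, b, c, d, !(s == m.testBit d)))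
  | .tri A B C => [.sep A false, .sep B false, .sep C false]
  | .ord i j => [.ori (0, 1, i, j, true)]

/-- the three partitions separate all points -/
def orth (A B C : ℕ) : Bool :=
  decide (∀ i j : Fin 8, A.testBit i = A.testBit j → B.testBit i = B.testBit j →
    C.testBit i = C.testBit j → i = j)

def valid : Desc → Bool
  | .gp x y a b c d _ _ _ _ => decide ([x, y, a, b, c, d].Nodup)
  | .sep _ a b c _ => decide ([a, b, c].Nodup)
  | .tri A B C => orth A B C
  | .ord i j => decide (2 ≤ i ∧ i < j)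

/-- The assumptions on the eight points. -/
structure Good (Q : Fin 8 → E) : Prop where
  ne : ∀ a b c d : Fin 8, [a, b, c, d].Nodup → chi Q a b c d ≠ 0
  ord : ∀ i j : Fin 8, 2 ≤ i → i < j → 0 < chi Q 0 1 i j

lemma gp_clause {Q : Fin 8 → E} (hQ : Good Q) {x y a b c d : Fin 8} {v1 v2 v3 t : Bool}
    (hnd : [x, y, a, b, c, d].Nodup) : ∃ l ∈ lits (.gp x y a b c d v1 v2 v3 t), Holds Q l := by
  by_contra hc
  push Not at hc
  simp only [lits, List.mem_cons, List.not_mem_nil, or_false, forall_eq_or_imp, forall_eq,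
    Holds, val] at hc
  obtain ⟨h1, h2, h3, h4, h5, h6⟩ := hc
  simp only [List.nodup_cons, List.mem_cons, List.not_mem_nil, or_false, not_or,
    List.nodup_nil, and_true, not_false_eq_true] at hnd
  have n1 : chi Q x y a b ≠ 0 := hQ.ne _ _ _ _ (by simp; tauto)
  have n2 : chi Q x y c d ≠ 0 := hQ.ne _ _ _ _ (by simp; tauto)
  have n3 : chi Q x y a c ≠ 0 := hQ.ne _ _ _ _ (by simp; tauto)
  have n4 : chi Q x y b d ≠ 0 := hQ.ne _ _ _ _ (by simp; tauto)
  have n5 : chi Q x y a d ≠ 0 := hQ.ne _ _ _ _ (by simp; tauto)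
  have n6 : chi Q x y b c ≠ 0 := hQ.ne _ _ _ _ (by simp; tauto)
  have p1 := not_pos_iff n1 h1
  have p2 := not_pos_iff n2 h2
  have p3 := not_pos_iff n3 h3
  have p4 : 0 < sg (!(t == v2)) * chi Q x y b d := by
    apply not_pos_iff n4
    rw [Bool.not_not]
    exact h4
  have p5 := not_pos_iff n5 h5
  have p6 := not_pos_iff n6 h6
  rw [sg_beq] at p2 p6
  rw [sg_not, sg_beq] at p4
  have q1 := mul_pos p1 p2
  have q2 := mul_pos p3 p4
  have q3 := mul_pos p5 p6
  have e1 : sg v1 * chi Q x y a b * (sg t * sg v1 * chi Q x y c d) =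
      sg t * (chi Q x y a b * chi Q x y c d) * (sg v1 * sg v1) := by ring
  have e2 : sg v2 * chi Q x y a c * (-(sg t * sg v2) * chi Q x y b d) =
      - sg t * (chi Q x y a c * chi Q x y b d) * (sg v2 * sg v2) := by ring
  have e3 : sg v3 * chi Q x y a d * (sg t * sg v3 * chi Q x y b c) =
      sg t * (chi Q x y a d * chi Q x y b c) * (sg v3 * sg v3) := by ring
  rw [e1, sg_sq, mul_one] at q1
  rw [e2, sg_sq, mul_one] at q2
  rw [e3, sg_sq, mul_one] at q3
  have hgp := D_gp (Q x) (Q y) (Q a) (Q b) (Q c) (Q d)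
  have hsum : sg t * (chi Q x y a b * chi Q x y c d) +
      -sg t * (chi Q x y a c * chi Q x y b d) + sg t * (chi Q x y a d * chi Q x y b c) = 0 := by
    have : sg t * (chi Q x y a b * chi Q x y c d) +
      -sg t * (chi Q x y a c * chi Q x y b d) + sg t * (chi Q x y a d * chi Q x y b c) =
      sg t * (chi Q x y a b * chi Q x y c d - chi Q x y a c * chi Q x y b d +
        chi Q x y a d * chi Q x y b c) := by ring
    rw [this]
    unfold chi
    rw [hgp, mul_zero]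
  linarith

lemma sep_clause {Q : Fin 8 → E} (hQ : Good Q) {m : ℕ} {a b c : Fin 8} {s : Bool}
    (hnd : [a, b, c].Nodup) : ∃ l ∈ lits (.sep m a b c s), Holds Q l := by
  by_contra hc
  push Not at hc
  simp only [List.nodup_cons, List.mem_cons, List.not_mem_nil, or_false, not_or,
    List.nodup_nil, and_true, not_false_eq_true] at hnd
  have h0 : ¬ Sep Q m := by
    have := hc (.sep m true) (by simp [lits])
    simpa [Holds] using this
  apply h0
  have hne : ∀ d, d ≠ a → d ≠ b → d ≠ c → chi Q a b c d ≠ 0 := by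
    intro d h1 h2 h3
    apply hQ.ne
    simp
    tauto
  refine sep_of_triple (s := s) hnd.1.1 hnd.1.2 hnd.2 hne ?_
  intro d h1 h2 h3
  have h4 := hc (.ori (a, b, c, d, !(s == m.testBit d))) (by
    simp only [lits, List.mem_cons, List.mem_map, List.mem_filter, List.mem_finRange, true_and]
    right
    exact ⟨d, by simp [h1, h2, h3], rfl⟩)
  exact not_pos_iff (hne d h1 h2 h3) h4

lemma clause {Q : Fin 8 → E} (hQ : Good Q)
    (hno : ∀ A B C : ℕ, orth A B C = true → ¬ (Sep Q A ∧ Sep Q B ∧ Sep Q C))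
    (d : Desc) (hd : valid d = true) : ∃ l ∈ lits d, Holds Q l := by
  cases d with
  | gp x y a b c d v1 v2 v3 t => exact gp_clause hQ (by simpa [valid] using hd)
  | sep m a b c s => exact sep_clause hQ (by simpa [valid] using hd)
  | tri A B C =>
    by_contra hc
    push Not at hc
    simp only [lits, List.mem_cons, List.not_mem_nil, or_false, forall_eq_or_imp, forall_eq,
      Holds] at hc
    simp at hc
    exact hno A B C hd hc
  | ord i j =>
    simp only [valid, decide_eq_true_eq] at hd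
    refine ⟨.ori (0, 1, i, j, true), by simp [lits], ?_⟩
    simp only [Holds, val, sg, if_true, one_mul]
    exact hQ.ord i j hd.1 hd.2

/-! ### The checker -/

/-- Decision trees: a leaf names a violated clause, a node names a variable; the first subtree is
for the case that the variable is true. -/
inductive Tree
  | l (i : ℕ)
  | n (v : ℕ) (a b : Tree)

/-- `T` and `F` are the sets of the variables which are true and false on the current branch. -/
def chk (cs : List (ℕ × ℕ)) : Tree → ℕ → ℕ → Bool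
  | .l i, T, F =>
    match cs[i]? with
    | some c => (Nat.land c.1 F == c.1) && (Nat.land c.2 T == c.2)
    | none => false
  | .n v a b, T, F => chk cs a (Nat.lor T (2 ^ v)) F && chk cs b T (Nat.lor F (2 ^ v))

lemma chk_sound (cs : List (ℕ × ℕ)) (A : ℕ → Prop)
    (hcs : ∀ c ∈ cs, ∃ v, (c.1.testBit v = true ∧ A v) ∨ (c.2.testBit v = true ∧ ¬ A v)) :
    ∀ (t : Tree) (T F : ℕ), (∀ v, T.testBit v = true → A v) → (∀ v, F.testBit v = true → ¬ A v) →
      chk cs t T F = true → False := by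
  intro t
  induction t with
  | l i =>
    intro T F hT hF h
    unfold chk at h
    split at h
    · rename_i c hc
      rw [Bool.and_eq_true, beq_iff_eq, beq_iff_eq] at h
      obtain ⟨v, hv | hv⟩ := hcs c (List.mem_of_getElem? hc)
      · have h1 : (c.1 &&& F).testBit v = true := by
          show (Nat.land c.1 F).testBit v = true
          rw [h.1]; exact hv.1
        rw [Nat.testBit_and, Bool.and_eq_true] at h1
        exact hF v h1.2 hv.2
      · have h1 : (c.2 &&& T).testBit v = true := by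
          show (Nat.land c.2 T).testBit v = true
          rw [h.2]; exact hv.1
        rw [Nat.testBit_and, Bool.and_eq_true] at h1
        exact hv.2 (hT v h1.2)
    · exact absurd h (by simp)
  | n v a b iha ihb =>
    intro T F hT hF h
    unfold chk at h
    rw [Bool.and_eq_true] at h
    by_cases hv : A v
    · refine iha (Nat.lor T (2 ^ v)) F ?_ hF h.1
      intro w hw
      have hw' : (T ||| 2 ^ v).testBit w = true := hw
      rw [Nat.testBit_or, Bool.or_eq_true, Nat.testBit_two_pow] at hw'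
      rcases hw' with h1 | h1
      · exact hT w h1
      · rw [decide_eq_true_eq] at h1
        rw [← h1]; exact hv
    · refine ihb T (Nat.lor F (2 ^ v)) hT ?_ h.2
      intro w hw
      have hw' : (F ||| 2 ^ v).testBit w = true := hw
      rw [Nat.testBit_or, Bool.or_eq_true, Nat.testBit_two_pow] at hw'
      rcases hw' with h1 | h1
      · exact hF w h1
      · rw [decide_eq_true_eq] at h1
        rw [← h1]; exact hv

/-- the clause as a pair of bit masks -/
def toMasks (ls : List Lit) : ℕ × ℕ :=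
  ls.foldr (fun l c => if encS l then (Nat.lor c.1 (2 ^ encV l), c.2)
    else (c.1, Nat.lor c.2 (2 ^ encV l))) (0, 0)

lemma toMasks_spec (Q : Fin 8 → E) (ls : List Lit) (hls : ∀ l ∈ ls, encOK l = true)
    (h : ∃ l ∈ ls, Holds Q l) :
    ∃ v, ((toMasks ls).1.testBit v = true ∧ A Q v) ∨
      ((toMasks ls).2.testBit v = true ∧ ¬ A Q v) := by
  induction ls with
  | nil => simp at h
  | cons l ls ih =>
    have hm : toMasks (l :: ls) = if encS l then
        (Nat.lor (toMasks ls).1 (2 ^ encV l), (toMasks ls).2)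
        else ((toMasks ls).1, Nat.lor (toMasks ls).2 (2 ^ encV l)) := rfl
    rw [hm]
    obtain ⟨l', hl', hh⟩ := h
    rcases List.mem_cons.1 hl' with rfl | hl'
    · have hs := enc_spec Q l' (hls l' (by simp)) hh
      refine ⟨(encV l'), ?_⟩
      rcases hs with ⟨h1, h2⟩ | ⟨h1, h2⟩
      · left
        rw [if_pos h1]
        refine ⟨?_, h2⟩
        show ((toMasks ls).1 ||| 2 ^ (encV l')).testBit _ = true
        simp
      · right
        rw [if_neg (by rw [h1]; simp)]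
        refine ⟨?_, h2⟩
        show ((toMasks ls).2 ||| 2 ^ (encV l')).testBit _ = true
        simp
    · obtain ⟨v, hv⟩ := ih (fun l hl => hls l (by simp [hl])) ⟨l', hl', hh⟩
      refine ⟨v, ?_⟩
      rcases hv with ⟨h1, h2⟩ | ⟨h1, h2⟩
      · left
        refine ⟨?_, h2⟩
        split_ifs
        · show ((toMasks ls).1 ||| 2 ^ (encV l)).testBit _ = true
          simp [h1]
        · exact h1
      · right
        refine ⟨?_, h2⟩
        split_ifs
        · exact h1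
        · show ((toMasks ls).2 ||| 2 ^ (encV l)).testBit _ = true
          simp [h1]

/-- the clauses used -/
def descs : List Desc :=
  [.gp 0 2 1 3 4 5 false false false true,
   .gp 0 2 1 3 4 5 false false false false,
   .gp 0 2 1 3 4 6 false false false true,
   .gp 0 2 1 3 4 6 false false false false,
   .gp 0 2 1 3 4 7 false false false false,
   .gp 0 2 1 3 5 6 false false false true,
   .gp 0 2 1 3 5 6 false false false false,
   .gp 0 2 1 4 5 6 false false false true,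
   .gp 0 2 1 4 5 6 false false false false,
   .gp 0 3 1 2 4 6 true false false false,
   .gp 0 3 1 4 5 6 false false false true,
   .gp 0 3 1 4 5 6 false false false false,
   .gp 0 4 1 2 3 5 true true false true,
   .gp 0 4 1 2 3 6 true true false false,
   .gp 0 4 1 2 5 6 true false false true,
   .gp 0 4 1 3 5 6 true false false true,
   .gp 0 4 1 3 5 7 true false false true,
   .gp 0 4 1 5 6 7 false false false true,
   .gp 0 5 1 2 3 6 true true false false,
   .gp 0 5 1 2 4 6 true true false false,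
   .gp 0 5 1 2 4 7 true true false false,
   .gp 0 5 1 3 4 6 true true false true,
   .gp 0 5 1 3 4 6 true true false false,
   .gp 0 5 1 3 4 7 true true false false,
   .gp 0 6 1 2 3 5 true true true false,
   .gp 0 6 1 2 3 7 true true false false,
   .gp 0 6 1 2 4 7 true true false true,
   .gp 0 6 1 2 4 7 true true false false,
   .gp 0 6 1 3 4 7 true true false true,
   .gp 0 7 1 3 4 6 true true true true,
   .gp 1 2 0 3 4 5 true true true true,
   .gp 1 2 0 3 4 5 true true true false,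
   .gp 1 2 0 3 4 6 true true true false,
   .gp 1 2 0 3 5 6 true true true false,
   .gp 1 2 0 4 5 6 true true true true,
   .gp 1 2 0 4 5 6 true true true false,
   .gp 1 3 0 2 4 6 false true true false,
   .gp 1 3 0 2 5 6 false true true false,
   .gp 1 4 0 2 3 5 false false true true,
   .gp 1 4 0 2 3 6 false false true true,
   .gp 1 4 0 2 5 6 false true true true,
   .gp 1 4 0 2 5 6 false true true false,
   .gp 1 4 0 3 5 6 false true true true,
   .gp 2 3 0 1 4 5 true false true true,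
   .gp 2 3 0 1 4 5 true false true false,
   .gp 2 3 0 1 4 6 true false true true,
   .gp 2 3 0 1 4 6 true false true false,
   .gp 2 3 0 1 5 6 true true true true,
   .gp 2 3 0 1 5 6 true true true false,
   .gp 2 3 0 4 5 6 false true true true,
   .gp 2 4 0 1 3 6 true true true true,
   .gp 2 4 0 1 3 6 true false true false,
   .gp 2 4 0 1 5 6 true false true false,
   .gp 3 4 0 1 5 6 true false true false,
   .sep 15 0 1 3 false,
   .sep 23 0 2 4 true,
   .sep 23 1 2 3 false,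
   .sep 23 1 2 4 false,
   .sep 27 0 2 4 true,
   .sep 27 1 2 4 false,
   .sep 29 0 1 4 false,
   .sep 39 1 2 4 false,
   .sep 39 1 2 5 false,
   .sep 39 2 3 5 false,
   .sep 43 1 2 4 false,
   .sep 45 0 2 4 false,
   .sep 45 1 4 5 false,
   .sep 53 0 2 4 false,
   .sep 53 0 2 5 false,
   .sep 53 2 3 5 false,
   .sep 57 0 2 5 false,
   .sep 71 0 2 6 true,
   .sep 71 1 2 4 false,
   .sep 71 1 2 5 false,
   .sep 71 1 2 6 false,
   .sep 71 1 3 6 false,
   .sep 71 2 3 6 false,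
   .sep 75 0 2 6 true,
   .sep 75 0 3 6 true,
   .sep 75 2 3 6 false,
   .sep 77 0 3 6 false,
   .sep 77 0 4 6 false,
   .sep 77 0 5 6 false,
   .sep 77 1 3 6 false,
   .sep 77 1 4 6 false,
   .sep 83 1 2 4 false,
   .sep 85 0 2 5 false,
   .sep 85 0 2 6 false,
   .sep 85 0 3 4 false,
   .sep 85 0 4 6 false,
   .sep 85 2 3 6 false,
   .sep 89 0 2 4 false,
   .sep 89 0 2 5 false,
   .sep 89 0 2 6 false,
   .sep 99 0 5 6 true,
   .sep 99 1 2 5 false,
   .sep 101 0 2 4 false,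
   .sep 101 0 2 5 false,
   .sep 101 0 2 6 false,
   .sep 101 0 5 6 false,
   .sep 101 2 4 6 false,
   .sep 105 0 2 4 false,
   .sep 105 0 2 6 false,
   .sep 105 0 3 5 false,
   .sep 105 0 3 6 false,
   .sep 105 3 4 6 false,
   .sep 113 0 2 6 false,
   .sep 113 0 3 7 false,
   .sep 113 0 4 5 false,
   .sep 113 0 4 6 false,
   .sep 135 0 2 6 true,
   .sep 135 1 2 4 false,
   .sep 135 1 2 5 false,
   .sep 135 1 2 6 false,
   .sep 135 1 3 6 false,
   .sep 135 2 3 5 false,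
   .sep 135 2 3 6 false,
   .sep 139 0 2 6 true,
   .sep 139 0 3 6 true,
   .sep 139 1 2 4 false,
   .sep 139 2 3 5 false,
   .sep 139 2 3 6 false,
   .sep 141 0 2 6 false,
   .sep 141 0 3 6 false,
   .sep 141 0 4 6 false,
   .sep 141 0 5 6 false,
   .sep 141 1 2 4 false,
   .sep 141 1 3 6 false,
   .sep 141 1 4 5 false,
   .sep 141 1 4 6 false,
   .sep 147 0 4 6 true,
   .sep 147 1 2 3 false,
   .sep 147 1 2 4 false,
   .sep 149 0 2 5 false,
   .sep 149 0 2 6 false,
   .sep 149 0 4 6 false,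
   .sep 149 2 3 5 false,
   .sep 149 2 3 6 false,
   .sep 153 0 2 4 false,
   .sep 153 0 2 5 false,
   .sep 153 0 2 6 false,
   .sep 153 0 3 7 false,
   .sep 153 0 4 7 false,
   .sep 163 0 5 6 true,
   .sep 163 1 2 4 false,
   .sep 163 1 2 5 false,
   .sep 165 0 2 4 false,
   .sep 165 0 2 6 false,
   .sep 165 0 3 6 false,
   .sep 165 0 5 6 false,
   .sep 165 2 4 6 false,
   .sep 169 0 2 4 false,
   .sep 169 0 2 6 false,
   .sep 169 0 3 4 false,
   .sep 169 0 3 5 false,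
   .sep 169 0 3 6 false,
   .sep 169 0 4 7 false,
   .sep 169 1 2 4 false,
   .sep 169 3 4 6 false,
   .sep 177 0 2 6 false,
   .sep 177 0 3 6 false,
   .sep 177 0 3 7 false,
   .sep 177 0 4 5 false,
   .sep 177 0 4 6 false,
   .sep 177 0 4 7 false,
   .sep 195 0 1 5 true,
   .sep 197 0 2 5 false,
   .sep 197 0 3 4 false,
   .sep 197 1 2 4 false,
   .sep 197 1 2 5 false,
   .sep 201 0 2 4 false,
   .sep 201 0 3 5 false,
   .sep 209 0 4 5 false,
   .sep 225 0 1 4 true,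
   .tri 15 53 163,
   .tri 15 57 83,
   .tri 15 57 99,
   .tri 15 57 147,
   .tri 15 57 163,
   .tri 15 85 195,
   .tri 15 89 195,
   .tri 15 99 197,
   .tri 15 99 201,
   .tri 15 101 195,
   .tri 15 105 195,
   .tri 15 147 197,
   .tri 15 149 195,
   .tri 15 153 195,
   .tri 15 163 197,
   .tri 15 163 201,
   .tri 15 165 195,
   .tri 15 169 195,
   .tri 23 77 195,
   .tri 23 113 195,
   .tri 23 141 195,
   .tri 23 177 195,
   .tri 27 77 195,
   .tri 27 113 195,
   .tri 27 141 195,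
   .tri 27 177 195,
   .tri 29 39 75,
   .tri 29 39 113,
   .tri 29 39 177,
   .tri 29 43 135,
   .tri 29 71 113,
   .tri 29 71 209,
   .tri 29 75 197,
   .tri 29 75 209,
   .tri 29 113 197,
   .tri 29 135 177,
   .tri 29 135 201,
   .tri 29 135 209,
   .tri 29 139 177,
   .tri 29 139 197,
   .tri 29 139 209,
   .tri 29 177 197,
   .tri 45 71 225,
   .tri 45 75 225,
   .tri 45 135 225,
   .tri 45 139 225,
   .tri 53 71 225,
   .tri 53 77 225,
   .tri 53 135 225,
   .tri 53 141 225,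
   .tri 57 75 225,
   .tri 57 77 225,
   .tri 57 139 225,
   .tri 57 141 225,
   .ord 2 3,
   .ord 2 4,
   .ord 2 5,
   .ord 2 6,
   .ord 2 7,
   .ord 3 4,
   .ord 3 5,
   .ord 3 6,
   .ord 3 7,
   .ord 4 5,
   .ord 4 6,
   .ord 4 7,
   .ord 5 6,
   .ord 5 7,
   .ord 6 7]

/-- the refutation -/
def tree : Tree :=
  (.n 1 (.n 2 (.n 3 (.n 4 (.n 5 (.n 6 (.n 7 (.n 8 (.n 9 (.n 10 (.n 11 (.n 12 (.n 13 (.n 14 (.n 15
  (.n 71 (.n 74 (.n 105 (.n 101 (.n 85 (.l 179) (.n 86 (.l 180) (.n 88 (.l 183) (.n 89 (.l 184)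
  (.n 95 (.l 186) (.n 96 (.l 187) (.n 98 (.l 190) (.n 99 (.l 191) (.n 16 (.n 20 (.n 17 (.n 21 (.n
  18 (.n 22 (.n 19 (.n 23 (.n 24 (.n 80 (.n 84 (.l 175) (.n 87 (.l 176) (.n 94 (.l 177) (.n 97
  (.l 178) (.n 83 (.l 225) (.n 92 (.l 226) (.n 93 (.l 227) (.n 25 (.n 91 (.n 76 (.l 203) (.n 100
  (.l 209) (.n 103 (.l 210) (.n 104 (.l 211) (.n 77 (.l 218) (.n 26 (.n 33 (.n 28 (.n 30 (.n 34
  (.n 31 (.n 90 (.n 72 (.l 193) (.n 73 (.l 197) (.n 75 (.l 201) (.n 81 (.l 204) (.n 102 (.l 208)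
  (.n 36 (.n 40 (.n 41 (.n 42 (.l 59) (.l 119)) (.n 47 (.l 39) (.n 52 (.l 41) (.n 54 (.l 84) (.l
  129))))) (.n 46 (.l 38) (.n 52 (.n 53 (.l 66) (.l 128)) (.n 41 (.l 40) (.n 47 (.l 42) (.n 54
  (.l 84) (.l 129))))))) (.n 40 (.n 41 (.n 42 (.l 57) (.l 132)) (.n 42 (.l 72) (.l 168))) (.n 37
  (.l 31) (.n 43 (.n 44 (.l 62) (.l 145)) (.n 44 (.l 73) (.l 169))))))))))) (.l 107)) (.l 29))
  (.l 164)) (.l 23)) (.l 16)) (.n 32 (.l 162) (.l 172))) (.n 29 (.n 30 (.n 27 (.n 28 (.n 31 (.n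
  90 (.n 72 (.l 193) (.n 73 (.l 197) (.n 75 (.l 201) (.n 81 (.l 204) (.n 102 (.l 208) (.n 36 (.n
  40 (.n 41 (.n 42 (.l 59) (.l 119)) (.n 47 (.l 39) (.n 52 (.l 41) (.n 54 (.l 84) (.l 129)))))
  (.n 46 (.l 38) (.n 41 (.n 42 (.l 64) (.l 157)) (.n 47 (.l 39) (.n 57 (.l 51) (.n 66 (.n 68 (.l
  105) (.l 158)) (.l 53))))))) (.n 40 (.n 41 (.n 42 (.l 57) (.l 132)) (.n 42 (.l 72) (.l 168)))
  (.n 37 (.l 31) (.n 43 (.n 44 (.l 62) (.l 145)) (.n 44 (.l 73) (.l 169))))))))))) (.l 107)) (.l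
  160)) (.l 153)) (.n 31 (.l 104) (.l 155))) (.l 154)) (.n 30 (.l 103) (.l 171))))))))) (.l 110))
  (.n 31 (.l 25) (.n 34 (.l 27) (.n 81 (.n 77 (.l 216) (.n 28 (.n 30 (.n 100 (.n 72 (.l 195) (.n
  73 (.l 199) (.n 75 (.l 202) (.n 91 (.l 209) (.n 102 (.l 215) (.n 36 (.n 40 (.n 41 (.n 42 (.l
  59) (.l 119)) (.n 47 (.l 39) (.n 52 (.l 41) (.n 54 (.l 84) (.l 129))))) (.n 46 (.l 38) (.n 52
  (.n 53 (.l 66) (.l 128)) (.n 41 (.l 40) (.n 47 (.l 42) (.n 54 (.l 84) (.l 129))))))) (.n 40 (.n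
  41 (.n 42 (.l 57) (.l 111)) (.n 42 (.l 85) (.l 168))) (.n 37 (.l 31) (.n 43 (.n 44 (.l 62) (.l
  112)) (.n 44 (.l 95) (.l 169))))))))))) (.l 161)) (.l 141)) (.n 33 (.l 156) (.l 142)))) (.l
  71)))))))))))) (.l 70)) (.l 139)) (.n 25 (.l 93) (.l 140))) (.l 4)) (.l 138)) (.l 3)) (.n 23
  (.l 8) (.n 32 (.l 14) (.n 22 (.l 91) (.n 103 (.n 29 (.l 18) (.n 87 (.l 182) (.n 97 (.l 189) (.n
  35 (.l 143) (.l 94))))) (.l 170)))))) (.l 1)) (.n 21 (.n 18 (.n 23 (.n 22 (.n 77 (.n 81 (.l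
  216) (.n 91 (.l 218) (.n 25 (.l 110) (.l 71)))) (.l 65)) (.l 151)) (.l 7)) (.l 3)) (.n 27 (.l
  13) (.n 22 (.l 101) (.n 72 (.n 83 (.l 192) (.n 93 (.l 194) (.n 32 (.n 34 (.n 94 (.n 102 (.l
  185) (.n 17 (.n 23 (.n 18 (.n 25 (.l 102) (.l 152)) (.l 6)) (.n 29 (.l 18) (.n 35 (.l 82) (.l
  125)))) (.n 23 (.n 18 (.n 25 (.l 102) (.l 152)) (.n 25 (.l 98) (.l 147))) (.n 24 (.l 97) (.l
  166))))) (.l 130)) (.n 25 (.l 26) (.n 31 (.l 28) (.n 18 (.n 23 (.l 152) (.l 122)) (.n 29 (.l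
  148) (.l 123)))))) (.n 34 (.l 81) (.l 124))))) (.l 55)))))) (.n 20 (.n 26 (.n 27 (.n 21 (.n 32
  (.n 23 (.n 24 (.n 34 (.n 25 (.n 90 (.n 72 (.l 193) (.n 73 (.l 197) (.n 75 (.l 201) (.n 81 (.l
  204) (.n 102 (.l 208) (.n 17 (.n 18 (.n 80 (.n 91 (.n 94 (.l 177) (.n 97 (.l 178) (.n 92 (.l
  226) (.n 93 (.l 227) (.n 79 (.l 222) (.n 36 (.n 37 (.n 56 (.l 43) (.n 38 (.n 57 (.l 45) (.n 59
  (.n 60 (.l 63) (.l 120)) (.n 61 (.l 76) (.l 121)))) (.n 47 (.l 36) (.n 49 (.l 37) (.n 51 (.l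
  75) (.l 127)))))) (.n 40 (.l 30) (.n 43 (.n 44 (.l 62) (.l 145)) (.n 44 (.l 73) (.l 169)))))
  (.n 37 (.n 38 (.n 39 (.l 56) (.l 131)) (.n 57 (.n 59 (.l 47) (.n 61 (.l 90) (.l 137))) (.l
  46))) (.n 56 (.n 59 (.n 60 (.l 69) (.l 136)) (.n 38 (.l 48) (.n 57 (.n 61 (.l 90) (.l 137)) (.l
  49)))) (.l 44))))))))) (.l 110)) (.l 70)) (.l 6)) (.n 79 (.n 83 (.l 221) (.n 91 (.l 222) (.n 93
  (.l 223) (.n 18 (.l 110) (.n 92 (.n 77 (.l 219) (.n 36 (.n 40 (.n 41 (.n 42 (.l 59) (.l 126))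
  (.n 47 (.l 39) (.n 52 (.l 41) (.n 54 (.l 84) (.l 129))))) (.n 46 (.l 38) (.n 52 (.n 53 (.l 66)
  (.l 128)) (.n 41 (.l 40) (.n 47 (.l 42) (.n 54 (.l 84) (.l 129))))))) (.n 40 (.n 41 (.n 42 (.l
  57) (.l 111)) (.n 38 (.l 32) (.n 43 (.l 34) (.n 45 (.l 74) (.l 113))))) (.n 37 (.l 31) (.n 43
  (.n 44 (.l 62) (.l 112)) (.n 38 (.l 33) (.n 41 (.l 35) (.n 45 (.l 74) (.l 113))))))))) (.l
  117)))))) (.l 68)))))))) (.l 109)) (.l 27)) (.n 100 (.n 72 (.l 195) (.n 73 (.l 199) (.n 75 (.l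
  202) (.n 91 (.l 209) (.n 92 (.l 212) (.n 102 (.l 215) (.n 25 (.n 18 (.l 110) (.l 117)) (.n 17
  (.n 18 (.n 80 (.n 81 (.n 87 (.l 176) (.n 94 (.l 177) (.n 82 (.l 224) (.n 83 (.l 225) (.n 79 (.l
  220) (.n 36 (.n 37 (.n 56 (.l 43) (.n 38 (.n 57 (.l 45) (.n 59 (.n 60 (.l 63) (.l 115)) (.n 61
  (.l 79) (.l 116)))) (.n 47 (.l 36) (.n 49 (.l 37) (.n 51 (.l 83) (.l 114)))))) (.n 40 (.l 30)
  (.n 43 (.n 44 (.l 62) (.l 112)) (.n 44 (.l 95) (.l 169))))) (.n 37 (.n 38 (.n 39 (.l 56) (.l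
  131)) (.n 57 (.n 59 (.l 47) (.n 61 (.l 90) (.l 137))) (.l 46))) (.n 56 (.n 59 (.n 60 (.l 69)
  (.l 136)) (.n 38 (.l 48) (.n 57 (.n 61 (.l 90) (.l 137)) (.l 49)))) (.l 44))))))))) (.l 71))
  (.l 70)) (.l 6)) (.n 79 (.n 81 (.l 220) (.n 83 (.l 221) (.n 93 (.l 223) (.n 18 (.l 71) (.n 82
  (.n 77 (.l 217) (.n 36 (.n 40 (.n 41 (.n 42 (.l 59) (.l 119)) (.n 47 (.l 39) (.n 52 (.l 41) (.n
  54 (.l 84) (.l 129))))) (.n 46 (.l 38) (.n 52 (.n 53 (.l 66) (.l 128)) (.n 41 (.l 40) (.n 47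
  (.l 42) (.n 54 (.l 84) (.l 129))))))) (.n 40 (.n 41 (.n 42 (.l 57) (.l 111)) (.n 38 (.l 32) (.n
  43 (.l 34) (.n 45 (.l 74) (.l 113))))) (.n 37 (.l 31) (.n 43 (.n 44 (.l 62) (.l 112)) (.n 38
  (.l 33) (.n 41 (.l 35) (.n 45 (.l 74) (.l 113))))))))) (.l 77)))))) (.l 68)))))))))) (.l 163)))
  (.n 17 (.l 139) (.l 133))) (.l 19)) (.n 33 (.n 34 (.n 24 (.n 90 (.n 25 (.n 72 (.l 193) (.n 73
  (.l 197) (.n 75 (.l 201) (.n 81 (.l 204) (.n 102 (.l 208) (.n 23 (.n 17 (.n 18 (.n 80 (.n 91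
  (.n 94 (.l 177) (.n 97 (.l 178) (.n 92 (.l 226) (.n 93 (.l 227) (.n 79 (.l 222) (.n 36 (.n 37
  (.n 56 (.l 43) (.n 38 (.n 57 (.l 45) (.n 59 (.n 60 (.l 63) (.l 120)) (.n 61 (.l 76) (.l 121))))
  (.n 47 (.l 36) (.n 49 (.l 37) (.n 51 (.l 75) (.l 127)))))) (.n 40 (.l 30) (.n 43 (.n 44 (.l 62)
  (.l 145)) (.n 44 (.l 73) (.l 169))))) (.n 37 (.n 38 (.n 39 (.l 56) (.l 131)) (.n 57 (.n 59 (.l
  47) (.n 61 (.l 90) (.l 137))) (.l 46))) (.n 56 (.n 59 (.n 60 (.l 69) (.l 136)) (.n 38 (.l 48)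
  (.n 57 (.n 61 (.l 90) (.l 137)) (.l 49)))) (.l 44))))))))) (.l 110)) (.l 70)) (.l 6)) (.n 79
  (.n 83 (.l 221) (.n 91 (.l 222) (.n 93 (.l 223) (.n 18 (.l 110) (.n 92 (.n 77 (.l 219) (.n 36
  (.n 40 (.n 41 (.n 42 (.l 59) (.l 126)) (.n 47 (.l 39) (.n 52 (.l 41) (.n 54 (.l 84) (.l
  129))))) (.n 46 (.l 38) (.n 52 (.n 53 (.l 66) (.l 128)) (.n 41 (.l 40) (.n 47 (.l 42) (.n 54
  (.l 84) (.l 129))))))) (.n 40 (.n 41 (.n 42 (.l 57) (.l 111)) (.n 38 (.l 32) (.n 43 (.l 34) (.n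
  45 (.l 74) (.l 113))))) (.n 37 (.l 31) (.n 43 (.n 44 (.l 62) (.l 112)) (.n 38 (.l 33) (.n 41
  (.l 35) (.n 45 (.l 74) (.l 113))))))))) (.l 117)))))) (.l 68))) (.n 17 (.l 92) (.l 86))))))))
  (.l 27)) (.l 108)) (.l 20)) (.l 17)) (.n 104 (.n 81 (.l 205) (.n 82 (.l 207) (.n 91 (.l 211)
  (.n 92 (.l 214) (.n 17 (.n 23 (.n 18 (.n 25 (.l 110) (.l 71)) (.l 6)) (.n 18 (.n 25 (.l 93) (.l
  140)) (.n 25 (.l 87) (.l 134)))) (.n 23 (.n 18 (.n 25 (.l 110) (.l 71)) (.n 25 (.l 117) (.l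
  77))) (.n 18 (.l 5) (.n 25 (.l 87) (.l 134))))))))) (.l 172)))) (.n 32 (.l 14) (.n 34 (.l 89)
  (.l 135)))) (.n 18 (.l 9) (.n 29 (.l 11) (.n 32 (.l 15) (.n 28 (.l 88) (.n 102 (.n 23 (.l 24)
  (.n 87 (.l 181) (.n 97 (.l 188) (.n 35 (.l 143) (.l 94))))) (.l 167))))))) (.l 12)) (.n 17 (.l
  0) (.n 18 (.n 21 (.n 23 (.n 22 (.n 79 (.n 81 (.l 220) (.n 91 (.l 222) (.n 25 (.l 110) (.l
  71)))) (.l 67)) (.l 146)) (.l 5)) (.l 2)) (.n 21 (.n 23 (.n 22 (.n 79 (.n 97 (.l 174) (.n 81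
  (.l 220) (.n 83 (.l 221) (.n 91 (.l 222) (.n 93 (.l 223) (.n 25 (.n 90 (.n 92 (.n 72 (.l 193)
  (.n 73 (.l 197) (.n 75 (.l 201) (.n 77 (.l 219) (.n 36 (.n 40 (.n 41 (.n 42 (.l 59) (.l 126))
  (.n 47 (.l 39) (.n 52 (.l 41) (.n 54 (.l 84) (.l 129))))) (.n 46 (.l 38) (.n 52 (.n 53 (.l 66)
  (.l 128)) (.n 41 (.l 40) (.n 47 (.l 42) (.n 54 (.l 84) (.l 129))))))) (.n 40 (.n 41 (.n 42 (.l
  57) (.l 111)) (.n 38 (.l 32) (.n 43 (.l 34) (.n 45 (.l 74) (.l 113))))) (.n 41 (.n 42 (.l 61)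
  (.l 144)) (.n 57 (.n 62 (.n 64 (.l 100) (.l 150)) (.l 52)) (.l 50))))))))) (.l 117)) (.l 106))
  (.n 82 (.n 100 (.n 75 (.l 200) (.n 77 (.l 217) (.n 72 (.l 195) (.n 73 (.l 199) (.n 92 (.l 212)
  (.n 36 (.n 40 (.n 41 (.n 42 (.l 59) (.l 119)) (.n 47 (.l 39) (.n 52 (.l 41) (.n 54 (.l 84) (.l
  129))))) (.n 46 (.l 38) (.n 52 (.n 53 (.l 66) (.l 128)) (.n 41 (.l 40) (.n 47 (.l 42) (.n 54
  (.l 84) (.l 129))))))) (.n 40 (.n 41 (.n 42 (.l 57) (.l 111)) (.n 38 (.l 32) (.n 43 (.l 34) (.n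
  45 (.l 74) (.l 113))))) (.n 41 (.n 42 (.l 61) (.l 144)) (.n 57 (.n 62 (.n 64 (.l 100) (.l 150))
  (.l 52)) (.l 50)))))))))) (.l 159)) (.l 77)))))))) (.l 67)) (.l 146)) (.l 7)) (.n 22 (.l 96)
  (.n 73 (.n 83 (.l 196) (.n 93 (.l 198) (.n 23 (.n 25 (.l 98) (.l 147)) (.n 24 (.l 97) (.n 102
  (.n 87 (.l 181) (.n 97 (.l 188) (.n 82 (.l 206) (.n 92 (.l 213) (.n 26 (.n 29 (.n 27 (.n 31 (.l
  118) (.l 78)) (.l 11)) (.n 32 (.l 22) (.n 35 (.l 143) (.l 94)))) (.n 29 (.n 32 (.n 35 (.l 99)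
  (.l 149)) (.l 21)) (.n 27 (.l 10) (.n 31 (.l 80) (.l 123))))))))) (.l 166)))))) (.l
  58)))))))))))))))) (.l 165)) (.l 173)) (.l 60)) (.l 54)) (.l 242)) (.l 241)) (.l 240)) (.l
  239)) (.l 238)) (.l 237)) (.l 236)) (.l 235)) (.l 234)) (.l 233)) (.l 232)) (.l 231)) (.l 230))
  (.l 229)) (.l 228))

def clauses : List (ℕ × ℕ) := descs.map (fun d => toMasks (lits d))

lemma descs_valid : descs.all (fun d => valid d && (lits d).all encOK) = true := by
  decide +kernel

lemma tree_ok : chk clauses tree 0 0 = true := by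
  decide +kernel

/-- The combinatorial core. -/
theorem core {Q : Fin 8 → E} (hQ : Good Q) :
    ∃ A B C : ℕ, orth A B C = true ∧ Sep Q A ∧ Sep Q B ∧ Sep Q C := by
  by_contra hc
  push Not at hc
  refine chk_sound clauses (A Q) ?_ tree 0 0 (by simp) (by simp) tree_ok
  intro c hcm
  obtain ⟨d, hd, rfl⟩ := List.mem_map.1 hcm
  have h := List.all_eq_true.1 descs_valid d hd
  rw [Bool.and_eq_true] at h
  exact toMasks_spec Q _ (fun l hl => List.all_eq_true.1 h.2 l hl)
    (clause hQ (fun A B C h h' => hc A B C h h'.1 h'.2.1 h'.2.2) d h.1)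

/-! ### Numbering of the points -/

lemma det3_cramer (v a b u : E) (c : Fin 3 → ℝ) (hc : c 0 * v 0 + c 1 * v 1 + c 2 * v 2 = 0) :
    det3 v a b * (c 0 * u 0 + c 1 * u 1 + c 2 * u 2) =
      (c 0 * a 0 + c 1 * a 1 + c 2 * a 2) * det3 v u b -
      (c 0 * b 0 + c 1 * b 1 + c 2 * b 2) * det3 v u a := by
  simp only [det3]
  linear_combination (a 0 * (b 1 * u 2 - b 2 * u 1) - a 1 * (b 0 * u 2 - b 2 * u 0) +
    a 2 * (b 0 * u 1 - b 1 * u 0)) * hc

lemma inner_coord (u v : E) : ⟪u, v⟫ = u 0 * v 0 + u 1 * v 1 + u 2 * v 2 := by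
  rw [PiLp.inner_apply, Fin.sum_univ_three]
  simp only [RCLike.inner_apply, conj_trivial]
  ring

/-- A vector which is at least as long as another one has a larger inner product with itself. -/
lemma inner_lt_of_norm_le {x y : E} (h : ‖y‖ ≤ ‖x‖) (hne : y ≠ x) : ⟪x, y⟫ < ⟪x, x⟫ := by
  have h1 : 0 < ‖x - y‖ := norm_pos_iff.2 (sub_ne_zero.2 (Ne.symm hne))
  have h2 : ‖x - y‖ ^ 2 = ‖x‖ ^ 2 - 2 * ⟪x, y⟫ + ‖y‖ ^ 2 := norm_sub_sq_real x y
  have h3 : ⟪x, x⟫ = ‖x‖ ^ 2 := real_inner_self_eq_norm_sq x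
  have h4 : ‖y‖ ^ 2 ≤ ‖x‖ ^ 2 := by gcongr
  rw [h3]
  nlinarith [pow_pos h1 2]

/-- general position -/
def GP (P : Fin 8 → E) : Prop := ∀ a b c d : Fin 8, [a, b, c, d].Nodup → chi P a b c d ≠ 0

lemma GP.det_ne {P : Fin 8 → E} (hP : GP P) {a b c d : Fin 8} (h1 : a ≠ b) (h2 : a ≠ c)
    (h3 : a ≠ d) (h4 : b ≠ c) (h5 : b ≠ d) (h6 : c ≠ d) :
    det3 (P b - P a) (P c - P a) (P d - P a) ≠ 0 := by
  have := hP a b c d (by simp; tauto)
  exact this

lemma GP.inj {P : Fin 8 → E} (hP : GP P) {a b : Fin 8} (h : a ≠ b) : P b ≠ P a := by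
  have hex : ∀ a b : Fin 8, a ≠ b → ∃ c d, a ≠ c ∧ a ≠ d ∧ b ≠ c ∧ b ≠ d ∧ c ≠ d := by decide
  obtain ⟨c, d, h1, h2, h3, h4, h5⟩ := hex a b h
  intro he
  apply hP.det_ne h h1 h2 h3 h4 h5
  rw [he, sub_self]
  simp [det3]

/-- There is a numbering of the points as required. -/
theorem exists_good {P : Fin 8 → E} (hP : GP P) : ∃ σ : Equiv.Perm (Fin 8), Good (P ∘ σ) := by
  classical
  -- the first point
  obtain ⟨i₀, hi₀⟩ := Finite.exists_max (fun i => ‖P i‖)
  set v : Fin 8 → E := fun i => P i - P i₀ with hv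
  set f : E → ℝ := fun x => - ⟪P i₀, x⟫ with hf
  have hfpos : ∀ i, i ≠ i₀ → 0 < f (v i) := by
    intro i hi
    have h1 := inner_lt_of_norm_le (hi₀ i) (hP.inj (Ne.symm hi))
    simp only [hf, hv, inner_sub_right]
    linarith
  -- the second point
  set w : Fin 8 → E := fun i => (f (v i))⁻¹ • v i with hw
  obtain ⟨i₁, hi₁, hmax⟩ := Finset.exists_max_image (Finset.univ.erase i₀) (fun i => ‖w i‖)
    (by
      have hex : ∀ a : Fin 8, ∃ b, b ≠ a := by decide
      obtain ⟨b, hb⟩ := hex i₀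
      exact ⟨b, by simp [hb]⟩)
  have hi₁' : i₁ ≠ i₀ := by simpa using hi₁
  have hmax' : ∀ i, i ≠ i₀ → ‖w i‖ ≤ ‖w i₁‖ := fun i hi => hmax i (by simp [hi])
  have hwne : ∀ i, i ≠ i₀ → i ≠ i₁ → w i ≠ w i₁ := by
    intro i hi0 hi1 he
    have hex : ∀ a b c : Fin 8, ∃ d, d ≠ a ∧ d ≠ b ∧ d ≠ c := by decide
    obtain ⟨d, hd0, hd1, hdi⟩ := hex i₀ i₁ i
    apply hP.det_ne (Ne.symm hi₁') (Ne.symm hi0) (Ne.symm hd0) (Ne.symm hi1) (Ne.symm hd1)
      (Ne.symm hdi)
    have h1 : v i = (f (v i) * (f (v i₁))⁻¹) • v i₁ := by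
      have h2 : w i = (f (v i₁))⁻¹ • v i₁ := he
      rw [mul_smul, ← h2, hw]
      simp only
      rw [smul_smul, mul_inv_cancel₀ (hfpos i hi0).ne', one_smul]
    have h3 : P i - P i₀ = (f (v i) * (f (v i₁))⁻¹) • (P i₁ - P i₀) := h1
    rw [h3]
    generalize f (v i) * (f (v i₁))⁻¹ = t
    simp only [det3, PiLp.smul_apply, PiLp.sub_apply, smul_eq_mul]
    ring
  -- the linear form vanishing at the second point and positive at the others
  set c : E := (- ‖w i₁‖ ^ 2) • P i₀ - w i₁ with hcdef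
  set g : E → ℝ := fun x => ⟪c, x⟫ with hg
  have hgf : ∀ x, g x = ‖w i₁‖ ^ 2 * f x - ⟪w i₁, x⟫ := by
    intro x
    simp only [hg, hcdef, hf, inner_sub_left, real_inner_smul_left]
    ring
  have hgv : ∀ i, i ≠ i₀ → g (v i) = f (v i) * (⟪w i₁, w i₁⟫ - ⟪w i₁, w i⟫) := by
    intro i hi
    rw [hgf, real_inner_self_eq_norm_sq]
    have h1 : ⟪w i₁, w i⟫ = (f (v i))⁻¹ * ⟪w i₁, v i⟫ := by
      rw [hw]
      simp only
      rw [real_inner_smul_right]
    rw [h1]
    have h2 := (hfpos i hi).ne'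
    field_simp
  have hg1 : g (v i₁) = 0 := by
    rw [hgv i₁ hi₁', sub_self, mul_zero]
  have hgpos : ∀ i, i ≠ i₀ → i ≠ i₁ → 0 < g (v i) := by
    intro i h0 h1
    rw [hgv i h0]
    exact mul_pos (hfpos i h0)
      (sub_pos.2 (inner_lt_of_norm_le (hmax' i h0) (hwne i h0 h1)))
  -- a third point
  have hex : ∀ a b : Fin 8, ∃ d, d ≠ a ∧ d ≠ b := by decide
  obtain ⟨r, hr0, hr1⟩ := hex i₀ i₁
  have hgr := hgpos r hr0 hr1
  set θ : Fin 8 → ℝ := fun i => det3 (v i₁) (v r) (v i) / g (v r) / g (v i) with hθ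
  have hdet : ∀ i j, i ≠ i₀ → i ≠ i₁ → j ≠ i₀ → j ≠ i₁ →
      det3 (v i₁) (v i) (v j) = g (v i) * g (v j) * (θ j - θ i) := by
    intro i j hi0 hi1 hj0 hj1
    have h1 := det3_cramer (v i₁) (v i) (v j) (v r) (fun k => c k) (by
      rw [← inner_coord]; exact hg1)
    simp only [← inner_coord] at h1
    have h2 : det3 (v i₁) (v i) (v j) * g (v r) =
      g (v i) * det3 (v i₁) (v r) (v j) - g (v j) * det3 (v i₁) (v r) (v i) := h1
    have h3 := (hgpos i hi0 hi1).ne'
    have h4 := (hgpos j hj0 hj1).ne'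
    have h5 := hgr.ne'
    simp only [hθ]
    field_simp
    linear_combination h2
  set m : ℝ := - ∑ i, |θ i| with hm
  have hmle : ∀ i, m ≤ θ i := by
    intro i
    have h1 : |θ i| ≤ ∑ i, |θ i| :=
      Finset.single_le_sum (f := fun i => |θ i|) (fun i _ => abs_nonneg _) (Finset.mem_univ i)
    have h2 := neg_abs_le (θ i)
    simp only [hm]
    linarith
  set key : Fin 8 → ℝ := fun i => if i = i₀ then m - 2 else if i = i₁ then m - 1 else θ i
    with hkey
  have hmono : Monotone (key ∘ Tuple.sort key) := Tuple.monotone_sort key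
  set σ := Tuple.sort key with hσ
  have hk0 : key i₀ = m - 2 := by simp [hkey]
  have hk1 : key i₁ = m - 1 := by simp [hkey, hi₁']
  have hkθ : ∀ i, i ≠ i₀ → i ≠ i₁ → key i = θ i := by
    intro i h0 h1; simp [hkey, h0, h1]
  have hkge : ∀ i, i ≠ i₀ → m - 1 ≤ key i := by
    intro i h0
    by_cases h1 : i = i₁
    · rw [h1, hk1]
    · rw [hkθ i h0 h1]; linarith [hmle i]
  have hσ0 : σ 0 = i₀ := by
    by_contra hne
    have h1 := hkge _ hne
    have h2 : key (σ 0) ≤ key (σ (σ.symm i₀)) := hmono (Fin.zero_le _)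
    rw [Equiv.apply_symm_apply, hk0] at h2
    linarith
  have hσ1 : σ 1 = i₁ := by
    have h10 : σ 1 ≠ i₀ := by
      rw [← hσ0]
      intro h
      exact absurd (σ.injective h) (by decide)
    by_contra hne
    have h1 : key (σ 1) = θ (σ 1) := hkθ _ h10 hne
    have hs : σ.symm i₁ ≠ 0 := by
      intro h
      apply hi₁'
      rw [← hσ0, ← h, Equiv.apply_symm_apply]
    have hone : ∀ x : Fin 8, x ≠ 0 → 1 ≤ x := by decide
    have h2 : key (σ 1) ≤ key (σ (σ.symm i₁)) := hmono (hone _ hs)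
    rw [Equiv.apply_symm_apply, hk1, h1] at h2
    linarith [hmle (σ 1)]
  refine ⟨σ, ?_, ?_⟩
  · intro a b c d hnd
    have := hP (σ a) (σ b) (σ c) (σ d) (by
      have h1 : ([a, b, c, d].map σ).Nodup := hnd.map σ.injective
      simpa using h1)
    exact this
  · intro i j hi hij
    have hne : ∀ k : Fin 8, 2 ≤ k → σ k ≠ i₀ ∧ σ k ≠ i₁ := by
      intro k hk
      constructor
      · rw [← hσ0]
        intro h
        have := σ.injective h
        subst this
        exact absurd hk (by decide)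
      · rw [← hσ1]
        intro h
        have := σ.injective h
        subst this
        exact absurd hk (by decide)
    obtain ⟨hi0, hi1⟩ := hne i hi
    obtain ⟨hj0, hj1⟩ := hne j (le_trans hi hij.le)
    have hd : det3 (v i₁) (v (σ i)) (v (σ j)) ≠ 0 :=
      hP.det_ne (Ne.symm hi₁') (Ne.symm hi0) (Ne.symm hj0) (Ne.symm hi1) (Ne.symm hj1)
        (fun h => hij.ne (σ.injective h))
    have hd2 := hdet (σ i) (σ j) hi0 hi1 hj0 hj1
    have hle : θ (σ i) ≤ θ (σ j) := by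
      have h1 : key (σ i) ≤ key (σ j) := hmono hij.le
      rwa [hkθ _ hi0 hi1, hkθ _ hj0 hj1] at h1
    have hgoal : chi (P ∘ σ) 0 1 i j = det3 (v i₁) (v (σ i)) (v (σ j)) := by
      simp only [chi, D, Function.comp_apply, hσ0, hσ1, hv]
    rw [hgoal]
    apply lt_of_le_of_ne _ hd.symm
    rw [hd2]
    exact mul_nonneg (mul_pos (hgpos _ hi0 hi1) (hgpos _ hj0 hj1)).le (sub_nonneg.2 hle)

/-! ### General position -/

/-- Four points whose determinant vanishes are coplanar. -/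
lemma coplanar_of_D_eq_zero {p q r x : E} (h : D p q r x = 0) :
    Coplanar ℝ ({p, q, r, x} : Set E) := by
  -- a nonzero normal vector
  let M : Matrix (Fin 3) (Fin 3) ℝ := !![q 0 - p 0, q 1 - p 1, q 2 - p 2;
    r 0 - p 0, r 1 - p 1, r 2 - p 2; x 0 - p 0, x 1 - p 1, x 2 - p 2]
  have hM : M.det = 0 := by
    rw [Matrix.det_fin_three]
    simp only [D, det3, PiLp.sub_apply] at h
    simp only [M, Matrix.of_apply, Matrix.cons_val', Matrix.cons_val_zero, Matrix.cons_val_one,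
      Matrix.cons_val]
    linear_combination h
  obtain ⟨u, hu0, hu⟩ := Matrix.exists_mulVec_eq_zero_iff.2 hM
  set U : E := !₂[u 0, u 1, u 2] with hU
  have hUne : U ≠ 0 := by
    intro h0
    apply hu0
    funext i
    have := congrArg (fun z : E => z i) h0
    fin_cases i <;> simpa [hU] using this
  have hrow : ∀ i, M i 0 * u 0 + M i 1 * u 1 + M i 2 * u 2 = 0 := by
    intro i
    have := congrFun hu i
    simpa [Matrix.mulVec, dotProduct, Fin.sum_univ_three] using this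
  have hq : ⟪U, q - p⟫ = 0 := by
    rw [inner_coord]
    have := hrow 0
    simp [M] at this
    simp only [hU, PiLp.sub_apply]
    simp
    linarith
  have hr : ⟪U, r - p⟫ = 0 := by
    rw [inner_coord]
    have := hrow 1
    simp [M] at this
    simp only [hU, PiLp.sub_apply]
    simp
    linarith
  have hx : ⟪U, x - p⟫ = 0 := by
    rw [inner_coord]
    have := hrow 2
    simp [M] at this
    simp only [hU, PiLp.sub_apply]
    simp
    linarith
  have hsub : vectorSpan ℝ ({p, q, r, x} : Set E) ≤ (Submodule.span ℝ {U})ᗮ := by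
    rw [vectorSpan_eq_span_vsub_set_right ℝ (show p ∈ ({p, q, r, x} : Set E) by simp),
      Submodule.span_le]
    rintro _ ⟨y, hy, rfl⟩
    rw [SetLike.mem_coe, Submodule.mem_orthogonal_singleton_iff_inner_right]
    simp only [Set.mem_insert_iff, Set.mem_singleton_iff] at hy
    rcases hy with rfl | rfl | rfl | rfl
    · simp
    · simpa using hq
    · simpa using hr
    · simpa using hx
  have hfact : Fact (Module.finrank ℝ E = 2 + 1) := ⟨by simp⟩
  have hfin : Module.finrank ℝ ((Submodule.span ℝ {U})ᗮ : Submodule ℝ E) = 2 :=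
    Submodule.finrank_orthogonal_span_singleton hUne
  rw [coplanar_iff_finrank_le_two]
  calc Module.finrank ℝ (vectorSpan ℝ ({p, q, r, x} : Set E))
      ≤ Module.finrank ℝ ((Submodule.span ℝ {U})ᗮ : Submodule ℝ E) :=
        Submodule.finrank_mono hsub
    _ = 2 := hfin

/-- The bijection between indices and sign patterns. -/
lemma orth_bij {A B C : ℕ} (h : orth A B C = true) (s : Fin 3 → Bool) :
    ∃! i : Fin 8, A.testBit i = s 0 ∧ B.testBit i = s 1 ∧ C.testBit i = s 2 := by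
  have horth := of_decide_eq_true h
  let φ : Fin 8 → (Fin 3 → Bool) := fun i => ![A.testBit i, B.testBit i, C.testBit i]
  have hinj : Function.Injective φ := by
    intro i j hij
    have h0 := congrFun hij 0
    have h1 := congrFun hij 1
    have h2 := congrFun hij 2
    simp [φ] at h0 h1 h2
    exact horth i j h0 h1 h2
  have hbij : Function.Bijective φ := by
    rw [Fintype.bijective_iff_injective_and_card]
    exact ⟨hinj, by simp⟩
  obtain ⟨i, hi⟩ := hbij.2 s
  refine ⟨i, ?_, ?_⟩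
  · have h0 := congrFun hi 0
    have h1 := congrFun hi 1
    have h2 := congrFun hi 2
    simp [φ] at h0 h1 h2
    exact ⟨h0, h1, h2⟩
  · rintro j ⟨h0, h1, h2⟩
    apply hinj
    rw [hi]
    funext k
    fin_cases k <;> simp [φ, h0, h1, h2]

/-- **Eight points in space in general position are separated by three planes.** Let `P` be a set
of eight points in three-dimensional Euclidean space, no four of which lie on a common plane. Then
there are three planes `{x | ⟪a i, x⟫ = b i}` (`i = 0, 1, 2`, with `a i ≠ 0`) containing no point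
of `P` and such that for each of the eight sign patterns `s` exactly one point of `P` has this
pattern. -/
theorem result (P : Finset (EuclideanSpace ℝ (Fin 3))) (hP : P.card = 8)
    (hgen : ∀ T ⊆ P, T.card = 4 → ¬ Coplanar ℝ (T : Set (EuclideanSpace ℝ (Fin 3)))) :
    ∃ (a : Fin 3 → EuclideanSpace ℝ (Fin 3)) (b : Fin 3 → ℝ),
      (∀ i, a i ≠ 0) ∧ (∀ x ∈ P, ∀ i, ⟪a i, x⟫ ≠ b i) ∧
      ∀ s : Fin 3 → Bool, ∃! x, x ∈ P ∧ ∀ i, (s i = true ↔ b i < ⟪a i, x⟫) := by
  classical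
  let e : P ≃ Fin 8 := Finset.equivFinOfCardEq hP
  let R : Fin 8 → E := fun i => (e.symm i : E)
  have hRinj : Function.Injective R := fun i j hij =>
    e.symm.injective (Subtype.ext hij)
  have hRmem : ∀ i, R i ∈ P := fun i => (e.symm i).2
  have hRsurj : ∀ x ∈ P, ∃ i, R i = x := fun x hx => ⟨e ⟨x, hx⟩, by simp [R]⟩
  have hGP : GP R := by
    intro i j k l hnd h0
    refine hgen {R i, R j, R k, R l} ?_ ?_ ?_
    · intro x hx
      simp only [Finset.mem_insert, Finset.mem_singleton] at hx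
      rcases hx with rfl | rfl | rfl | rfl <;> exact hRmem _
    · simp only [List.nodup_cons, List.mem_cons, List.not_mem_nil, or_false, not_or,
        List.nodup_nil, and_true, not_false_eq_true] at hnd
      rw [Finset.card_insert_of_notMem, Finset.card_insert_of_notMem,
        Finset.card_insert_of_notMem, Finset.card_singleton]
      · simp only [Finset.mem_singleton]
        exact fun h => hnd.2.2 (hRinj h)
      · simp only [Finset.mem_insert, Finset.mem_singleton, not_or]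
        exact ⟨fun h => hnd.2.1.1 (hRinj h), fun h => hnd.2.1.2 (hRinj h)⟩
      · simp only [Finset.mem_insert, Finset.mem_singleton, not_or]
        exact ⟨fun h => hnd.1.1 (hRinj h), fun h => hnd.1.2.1 (hRinj h),
          fun h => hnd.1.2.2 (hRinj h)⟩
    · have := coplanar_of_D_eq_zero h0
      simpa using this
  obtain ⟨σ, hσ⟩ := exists_good hGP
  obtain ⟨A, B, C, horth, ⟨u₀, β₀, h₀⟩, ⟨u₁, β₁, h₁⟩, ⟨u₂, β₂, h₂⟩⟩ := core hσ
  set Q : Fin 8 → E := R ∘ σ with hQ
  have hQinj : Function.Injective Q := hRinj.comp σ.injective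
  have hQmem : ∀ i, Q i ∈ P := fun i => hRmem _
  have hQsurj : ∀ x ∈ P, ∃ i, Q i = x := by
    intro x hx
    obtain ⟨i, hi⟩ := hRsurj x hx
    exact ⟨σ.symm i, by simp [hQ, hi]⟩
  -- a half-space and the bits
  have aux : ∀ (m : ℕ) (u : E) (β : ℝ), (∀ i : Fin 8, (m.testBit i = true → β < ⟪u, Q i⟫) ∧
      (m.testBit i = false → ⟪u, Q i⟫ < β)) → ∀ i : Fin 8,
      (⟪u, Q i⟫ ≠ β ∧ ∀ t : Bool, (m.testBit i = t ↔ (t = true ↔ β < ⟪u, Q i⟫))) := by
    intro m u β h i
    cases hb : m.testBit i with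
    | true =>
      have h1 := (h i).1 hb
      refine ⟨h1.ne', fun t => ?_⟩
      cases t <;> simp [h1]
    | false =>
      have h1 := (h i).2 hb
      refine ⟨h1.ne, fun t => ?_⟩
      cases t <;> simp [not_lt.2 h1.le]
  have a0 := aux A u₀ β₀ h₀
  have a1 := aux B u₁ β₁ h₁
  have a2 := aux C u₂ β₂ h₂
  have hmain : ∀ s : Fin 3 → Bool, ∃! x, x ∈ P ∧
      ∀ i, (s i = true ↔ (![β₀, β₁, β₂] : Fin 3 → ℝ) i <
        ⟪(![u₀, u₁, u₂] : Fin 3 → E) i, x⟫) := by
    intro s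
    obtain ⟨i, ⟨hi0, hi1, hi2⟩, huniq⟩ := orth_bij horth s
    refine ⟨Q i, ⟨hQmem i, ?_⟩, ?_⟩
    · intro k
      fin_cases k
      · exact ((a0 i).2 _).1 hi0
      · exact ((a1 i).2 _).1 hi1
      · exact ((a2 i).2 _).1 hi2
    · rintro x ⟨hx, hxs⟩
      obtain ⟨j, rfl⟩ := hQsurj x hx
      congr 1
      apply huniq
      exact ⟨((a0 j).2 _).2 (hxs 0), ((a1 j).2 _).2 (hxs 1), ((a2 j).2 _).2 (hxs 2)⟩
  refine ⟨![u₀, u₁, u₂], ![β₀, β₁, β₂], ?_, ?_, hmain⟩
  · intro i h0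
    obtain ⟨x, ⟨-, hx⟩, -⟩ := hmain (fun _ => true)
    obtain ⟨y, ⟨-, hy⟩, -⟩ := hmain (fun _ => false)
    have h1 := (hx i).1 rfl
    have h2 : ¬ _ := fun h => absurd ((hy i).2 h) (by simp)
    rw [h0, inner_zero_left] at h1 h2
    exact h2 h1
  · intro x hx i
    obtain ⟨j, rfl⟩ := hQsurj x hx
    fin_cases i
    · exact (a0 j).1
    · exact (a1 j).1
    · exact (a2 j).1

end Pool.Agent.Results.MP_a0a64f_co.EightPoints
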